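import Pool.Agent.K3h14.BC.Far
import Mathlib.Combinatorics.Enumerative.Catalan

/-!
Critical bond percolation on the half-plane of the rotated square lattice: the clusters of the
boundary vertices that the exploration path leaves over.
-/

set_option autoImplicit false

namespace Pool.Agent.Results.MP_6c8efb_pr.BoundaryClusterSizes

open MeasureTheory Filter Topology

/-- A configuration: every unit square `[a, a + 1] × [t, t + 1]` (`a` an integer, `t ≥ 0`) holds one
edge, which is open when the value is `true`. -/
abbrev Config : Type := ℤ × ℕ → Bool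

/-- `p` and `q` are the two ends of an open edge. The vertices are the points `(a, t)` with `a + t`
even; the edge of the square with lower left corner `(a, t)` is its diagonal from `(a, t)` to
`(a + 1, t + 1)` when `a + t` is even and the one from `(a + 1, t)` to `(a, t + 1)` otherwise. -/
def OpenEdge (ω : Config) (p q : ℤ × ℕ) : Prop :=
  ∃ (a : ℤ) (t : ℕ), ω (a, t) = true ∧
    ((Even (a + t) ∧ p = (a, t) ∧ q = (a + 1, t + 1)) ∨
      (¬ Even (a + t) ∧ p = (a + 1, t) ∧ q = (a, t + 1)))

/-- The boundary vertices `(2 i, 0)` and `(2 j, 0)` are joined by an open path. -/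
def Joined (ω : Config) (i j : ℤ) : Prop :=
  Relation.EqvGen (OpenEdge ω) (2 * i, 0) (2 * j, 0)

/-- Critical percolation: the edges are independent and open with probability `1/2`. -/
noncomputable def law : Measure Config :=
  Measure.infinitePi fun _ => (PMF.uniformOfFintype Bool).toMeasure

/-- The boundary vertices of the cluster of the `i`-th boundary vertex. -/
def touch (ω : Config) (i : ℤ) : Set ℤ := {j | Joined ω i j}

/-- The `i`-th boundary vertex belongs to `C_-`, the union of the clusters of the boundary vertices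
on the negative half-axis, whose outer boundary is traced by the exploration path. -/
def InC (ω : Config) (i : ℤ) : Prop := ∃ j < 0, Joined ω j i

/-- The `i`-th boundary vertex is outside `C_-` and is the leftmost boundary vertex of its cluster:
for `i ≥ 0` these vertices count the clusters of the positive half-axis that are not in `C_-`. -/
def LeftOver (ω : Config) (i : ℤ) : Prop := ¬ InC ω i ∧ ∀ j ∈ touch ω i, i ≤ j

open Classical in
/-- The number of boundary vertices `i` with `0 ≤ i < n` and the property `P`. -/
noncomputable def num (P : ℤ → Prop) (n : ℕ) : ℕ :=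
  ((Finset.range n).filter fun i : ℕ => P i).card

/-- **The clusters left over by the exploration path.** Almost surely: every cluster has finitely
many boundary vertices; `C_-` contains boundary vertices arbitrarily far to the right, but only a
proportion zero of the positive half-axis; the number of clusters of the first `n` boundary vertices
of the positive half-axis that are not in `C_-` is asymptotic to `n / 2`; and, for every `k`, the
proportion of them with more than `k` boundary vertices tends to `Cat_k / 4 ^ k`. -/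
theorem result : ∀ᵐ ω ∂law,
    (∀ i, (touch ω i).Finite) ∧
    (∀ m : ℤ, ∃ i, m ≤ i ∧ InC ω i) ∧
    Tendsto (fun n : ℕ => (num (InC ω) n : ℝ) / n) atTop (𝓝 0) ∧
    Tendsto (fun n : ℕ => (num (LeftOver ω) n : ℝ) / n) atTop (𝓝 (1 / 2)) ∧
    ∀ k : ℕ, Tendsto
      (fun n : ℕ => (num (fun i => LeftOver ω i ∧ (k : ℕ∞) < (touch ω i).encard) n : ℝ) /
        num (LeftOver ω) n) atTop (𝓝 ((catalan k : ℝ) / 4 ^ k)) := by
  classical
  have e1 : law = H731B.percH := rfl
  rw [e1]
  filter_upwards [Pool.Agent.K3h14.BC.fin_all, Pool.Agent.K3h14.BC.far_ae,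
    Pool.Agent.K3h14.BC.neg_freq, Pool.Agent.K3h14.BC.D_freq] with ω h1 h2 h3 h4
  have hin : ∀ i : ℤ, InC ω i ↔ ∃ j < 0, Pool.Agent.K3h14.BC.J ω i j := by
    intro i
    constructor
    · rintro ⟨j, hj, h⟩
      exact ⟨j, hj, .symm _ _ h⟩
    · rintro ⟨j, hj, h⟩
      exact ⟨j, hj, .symm _ _ h⟩
  have hleft : ∀ i : ℕ, LeftOver ω i ↔ Pool.Agent.K3h14.BC.First ω i := by
    intro i
    constructor
    · rintro ⟨_, h⟩
      exact h
    · intro h
      refine ⟨?_, h⟩
      rintro ⟨j, hj, hJ⟩
      have := h j (Relation.EqvGen.symm _ _ hJ)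
      omega
  have hnum : ∀ k n : ℕ, num (fun i => LeftOver ω i ∧ (k : ℕ∞) < (touch ω i).encard) n =
      Pool.Agent.K3h14.BC.cnt (Pool.Agent.K3h14.BC.D k) ω n := by
    intro k n
    unfold num Pool.Agent.K3h14.BC.cnt
    congr 1
    ext i
    simp only [Finset.mem_filter]
    refine and_congr_right fun _ => ?_
    rw [Pool.Agent.K3h14.BC.mem_D_sh, hleft]
    rfl
  have hnum0 : ∀ n : ℕ, num (LeftOver ω) n =
      Pool.Agent.K3h14.BC.cnt (Pool.Agent.K3h14.BC.D 0) ω n := by
    intro n
    rw [← hnum]
    unfold num
    congr 1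
    ext i
    simp only [Finset.mem_filter]
    refine and_congr_right fun _ => ?_
    constructor
    · intro h
      refine ⟨h, ?_⟩
      rw [Nat.cast_zero, Set.encard_pos]
      exact ⟨i, .refl _⟩
    · exact fun h => h.1
  have hs0 : Pool.Agent.K3h14.BC.s 0 = 1 := by
    unfold Pool.Agent.K3h14.BC.s
    simp
  have h5 : Tendsto (fun n : ℕ => (num (LeftOver ω) n : ℝ) / n) atTop (𝓝 (1 / 2)) := by
    have := h4 0
    rw [hs0] at this
    refine this.congr fun n => ?_
    rw [hnum0]
  refine ⟨h1, ?_, ?_, h5, ?_⟩
  · intro m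
    obtain ⟨i, j, hi, hj, hJ⟩ := h2 m.toNat
    exact ⟨j, by omega, i, hi, hJ⟩
  · refine h3.congr fun n => ?_
    congr 2
    unfold num
    congr 1
    ext i
    simp only [Finset.mem_filter]
    exact and_congr_right fun _ => (hin i).symm
  · intro k
    have h6 := (h4 k).div h5 (by norm_num)
    have e2 : Pool.Agent.K3h14.BC.s k / 2 / (1 / 2) = (catalan k : ℝ) / 4 ^ k := by
      unfold Pool.Agent.K3h14.BC.s
      ring
    rw [e2] at h6
    refine (tendsto_congr' ?_).1 h6
    filter_upwards [eventually_gt_atTop 0] with n hn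
    have hn0 : (n : ℝ) ≠ 0 := by exact_mod_cast hn.ne'
    show (Pool.Agent.K3h14.BC.cnt (Pool.Agent.K3h14.BC.D k) ω n : ℝ) / n /
      ((num (LeftOver ω) n : ℝ) / n) = _
    rw [← hnum, div_div_div_cancel_right₀ hn0]

end Pool.Agent.Results.MP_6c8efb_pr.BoundaryClusterSizes
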