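import Pool.Agent.K3h14.CT.Lim

/-!
Critical bond percolation on `ℤ²` in half-infinite strips (the lattice is rotated by 45 degrees):
the number of contacts of the exploration path with the flat end of the strip. Uniform local limit
theorem and large deviations.
-/

set_option autoImplicit false

namespace Pool.Agent.Results.MP_6c8efb_pr.ContactNumber

open MeasureTheory Filter Topology

/-- The edges of `ℤ²`: `(u, v, false)` joins `(u, v)` and `(u + 1, v)`, and `(u, v, true)` joins
`(u, v)` and `(u, v + 1)`. -/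
abbrev Edge : Type := ℤ × ℤ × Bool

/-- A configuration; the value `true` means that the edge is open. -/
abbrev Config : Type := Edge → Bool

/-- Critical bond percolation: the edges are independent and open with probability `1/2`. -/
noncomputable def law : Measure Config :=
  Measure.infinitePi fun _ => (PMF.uniformOfFintype Bool).toMeasure

/-- The vertices `a` and `b` are joined by an open edge. -/
def OpenAdj (ω : Config) (a b : ℤ × ℤ) : Prop :=
  (b = (a.1 + 1, a.2) ∧ ω (a.1, a.2, false) = true) ∨
  (a = (b.1 + 1, b.2) ∧ ω (b.1, b.2, false) = true) ∨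
  (b = (a.1, a.2 + 1) ∧ ω (a.1, a.2, true) = true) ∨
  (a = (b.1, b.2 + 1) ∧ ω (b.1, b.2, true) = true)

/-- The half-infinite strip of width `2 n + 1` between the left side `u - v = 0` and the right side
`u - v = 2 n + 1`, with the flat end `u + v = 1`. -/
def InStrip (n : ℕ) (x : ℤ × ℤ) : Prop :=
  0 ≤ x.1 - x.2 ∧ x.1 - x.2 ≤ ((2 * n + 1 : ℕ) : ℤ) ∧ x.1 + x.2 ≤ 1

/-- `x` and `y` are joined by an open path in the strip. -/
def Joined (n : ℕ) (ω : Config) : ℤ × ℤ → ℤ × ℤ → Prop :=
  Relation.ReflTransGen fun a b => OpenAdj ω a b ∧ InStrip n a ∧ InStrip n b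

/-- The contacts: the `n` vertices of the flat end which are not on the right side are the points
`(1, 0), (2, -1), …, (n, 1 - n)`; a contact is such a vertex which is joined to the right side by an
open path in the strip. (With open boundary on the right side, the exploration path which keeps the
cluster of the right side on one hand passes next to the flat end exactly at these vertices.) -/
def contacts (n : ℕ) (ω : Config) : Set (ℤ × ℤ) :=
  {x | x.1 + x.2 = 1 ∧ 0 ≤ x.1 - x.2 ∧ x.1 - x.2 < ((2 * n + 1 : ℕ) : ℤ) ∧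
    ∃ y : ℤ × ℤ, y.1 - y.2 = ((2 * n + 1 : ℕ) : ℤ) ∧ Joined n ω x y}

/-- The number of contacts. -/
noncomputable def count (n : ℕ) (ω : Config) : ℕ := (contacts n ω).ncard

/-- The rate function. -/
noncomputable def rate (a : ℝ) : ℝ :=
  (2 + a) * Real.log (2 + a) + (1 - a) * Real.log (1 - a) - (2 - a) * Real.log (2 - a) -
    (1 + a) * Real.log (1 + a) - a * Real.log 4

/-- **Local limit theorem and large deviations for the number of contacts.**
(1) `(2 n + 1) ^ (2/3) P(count = k)` differs from `exp(-(k ^ 3 / (2 n + 1) ^ 2)) / Γ(4/3)` by less than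
any `ε > 0` when `n` is large, uniformly in `k`.
(2) For `0 ≤ a ≤ 1` the probability of at least `a n` contacts is `exp(-n (rate a + o(1)))`; for
instance all the `n` vertices are joined to the right side with probability `(16/27 + o(1)) ^ n`. -/
theorem result :
    (∀ ε > 0, ∃ n₀ : ℕ, ∀ n ≥ n₀, ∀ k : ℕ,
      |(2 * (n : ℝ) + 1) ^ ((2 : ℝ) / 3) * law.real {ω | count n ω = k} -
        Real.exp (-((k : ℝ) ^ 3 / (2 * (n : ℝ) + 1) ^ 2)) / Real.Gamma (4 / 3)| ≤ ε) ∧
    (∀ a : ℝ, 0 ≤ a → a ≤ 1 →
      Tendsto (fun n : ℕ => Real.log (law.real {ω | a * n ≤ (count n ω : ℝ)}) / n) atTop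
        (𝓝 (-rate a))) ∧
    rate 1 = -Real.log (16 / 27) := by
  have e1 : law = Pool.Agent.H988R2.Perc.perc := rfl
  have e2 : ∀ n ω, count n ω = Pool.Agent.K3h14.CT.NN n ω := fun n ω => rfl
  have e3 : ∀ a, -rate a = Pool.Agent.K3h14.CT.JJ a := by
    intro a
    unfold rate Pool.Agent.K3h14.CT.JJ
    ring
  refine ⟨fun ε hε => ?_, fun a h0 h1 => ?_, ?_⟩
  · exact Pool.Agent.K3h14.CT.local_limit ε hε
  · rw [e3]
    exact Pool.Agent.K3h14.CT.large_dev h0 h1
  · rw [← Pool.Agent.K3h14.CT.JJ_one, ← e3, neg_neg]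

end Pool.Agent.Results.MP_6c8efb_pr.ContactNumber
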