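import Pool.Agent.K3h93.UM.HMain
import Pool.Agent.K3h93.UM.Cor
import Pool.Agent.Results.MP_6c8efb_pr.SpecialPoints

/-!
# The half-plane exploration path: smooth rigidity

Critical bond percolation on `ℤ × ℕ`, the edges `[x, x + 1]` of the real axis open for `x < 0` and
closed for `x ≥ 0`. The exploration path starts next to the origin and keeps the open cluster of
the negative half-axis on its left; `gam ω k` is its point after `k` steps, and `curve n ω` is the
path `n ^ (-4/7) γ(n t)`, `0 ≤ t ≤ 1`, with law `lawH n`. Weak limits exist along a subsequence of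
every sequence `n → ∞`.

For every weak limit, almost surely, for all maps at once (they may depend on the curve; a map is
called regular on a set if it has an invertible real derivative within the set at each of its
points):
* if the maps `g 1, …, g n` are regular on the set `E` and send every point `y` of `E` to `n`
  different points of the open half-plane, where `g i y` is a point of the trace, or lies on the
  side of the past at some time, or is a double point (of type `τ i`), then the dimension of `E`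
  is at most `2 - c (τ 1) - … - c (τ n)`, where `c = 1/4, 2/3, 5/4` for the three types (and `E`
  has dimension zero if this number is negative);
* if `ψ` is regular on a set `E` of points of the trace, maps `E` into the trace and has no fixed
  point in `E`, then `E` has dimension at most `3/2` (the dimension of the trace and of all its
  arcs is `7/4`);
* a map which is regular on an arc `f [s, t]`, `s < t`, and maps this arc into the trace is the
  identity on the arc;
* a non-constant holomorphic function on an open connected set `U` which meets the trace, which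
  maps the points of the trace in `U` into the trace, is the identity.

Definitions: `Pool.Agent.K3h93.UM.Cor` (`Reg`), `Pool.Agent.Results.MP_6c8efb_pr.SpecialPoints`
(`upperHalf`, `doublePoints`, `sides`, `sweptSides`), `Pool.Agent.H984R4.HN.HPDefs` (`Conf`, `perc`,
`opn`, `step`, `path`, `place`, `gam`, `curve`), `Pool.Agent.H984R4.HN.FinalH` (`lawH`),
`Pool.Agent.H984R4.NP.Model` (`pl`, `clamp`).
-/

set_option autoImplicit false

namespace Pool.Agent.Results.MP_6c8efb_pr.SmoothRigidity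

open H984H MeasureTheory Filter Topology
open scoped ENNReal
open Pool.Agent.Results.MP_6c8efb_pr.SpecialPoints
open K93M (Reg)

/-- The trace, the points which lie on the sides of the past at some time, the double points. -/
def special (f : C(unitInterval, ℂ)) : Fin 3 → Set ℂ :=
  ![Set.range f, sweptSides f, doublePoints f]

/-- The three codimensions. -/
noncomputable def codim : Fin 3 → ℝ := ![1 / 4, 2 / 3, 5 / 4]

theorem special_sub {f : C(unitInterval, ℂ)}
    (hf : ∀ s t : unitInterval, s < t → dimH (f '' Set.Icc s t) = 7 / 4) (τ : Fin 3) :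
    special f τ ⊆ ⋃ l : ℕ, K93M.spK (1 / ((l:ℝ) + 1)) f τ := by
  fin_cases τ
  · intro z hz
    exact Set.mem_iUnion.mpr ⟨0, hz⟩
  · exact swept_sub f
  · exact dbl_sub hf

theorem rig {f : C(unitInterval, ℂ)} (him : ∀ s : unitInterval, 0 ≤ (f s).im)
    (h2 : ∀ (τ : Fin 2 → Fin 3) (A : Set ℂ), K93U.Modelled Set.univ A → ∀ g : Fin 2 → ℂ → ℂ,
      (∀ i, ∀ y ∈ A, ∃ L : ℂ ≃L[ℝ] ℂ, HasFDerivWithinAt (g i) (L : ℂ →L[ℝ] ℂ) A y) →
      (∀ y ∈ A, ∀ i, g i y ∈ (⋃ l : ℕ, K93M.spK (1 / ((l:ℝ) + 1)) f (τ i)) ∧ 0 < (g i y).im) →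
      (∀ y ∈ A, ∀ i i', i ≠ i' → g i y ≠ g i' y) →
      dimH A ≤ ENNReal.ofReal (2 - ∑ i, K93M.exK (τ i)))
    (h0 : ∀ A : Set ℂ, K93U.Modelled (Set.range Complex.ofReal) A → dimH A ≤ ENNReal.ofReal 1) :
    K93M.Rig f := by
  intro E ψ hψ hE
  have hsub : E ⊆ {y | y ∈ E ∧ y.im = 0} ∪ ({y | y ∈ E ∧ (ψ y).im = 0} ∪
      {y | y ∈ E ∧ 0 < y.im ∧ 0 < (ψ y).im}) := by
    intro y hy
    obtain ⟨⟨u, hu⟩, ⟨v, hv⟩, -⟩ := hE y hy
    have h3 := him u
    have h4 := him v
    rw [hu] at h3
    rw [hv] at h4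
    rcases h3.eq_or_lt with h | h
    · exact Or.inl ⟨hy, h.symm⟩
    · rcases h4.eq_or_lt with h' | h'
      · exact Or.inr (Or.inl ⟨hy, h'.symm⟩)
      · exact Or.inr (Or.inr ⟨hy, h, h'⟩)
  have e1 : ENNReal.ofReal 1 ≤ 3 / 2 := by
    rw [show (3 / 2 : ℝ≥0∞) = ENNReal.ofReal (3 / 2) by
      rw [ENNReal.ofReal_div_of_pos (by norm_num)]; norm_num]
    exact ENNReal.ofReal_le_ofReal (by norm_num)
  have b1 : dimH {y | y ∈ E ∧ y.im = 0} ≤ 3 / 2 := by
    refine (h0 _ (K93M.modelled_subset ?_)).trans e1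
    rintro y ⟨-, hy⟩
    exact ⟨y.re, Complex.ext rfl hy.symm⟩
  have b2 : dimH {y | y ∈ E ∧ (ψ y).im = 0} ≤ 3 / 2 := by
    refine (h0 _ (K93M.preimage_modelled (a := 0) (b := 1)
      (hψ.mono (E' := {y | y ∈ E ∧ (ψ y).im = 0}) fun y hy => hy.1) one_ne_zero ?_)).trans e1
    rintro y ⟨-, hy⟩
    rw [sub_zero, div_one]
    exact ⟨(ψ y).re, Complex.ext rfl hy.symm⟩
  have b3 : dimH {y | y ∈ E ∧ 0 < y.im ∧ 0 < (ψ y).im} ≤ 3 / 2 := by
    have h3 := h2 ![0, 0] {y | y ∈ E ∧ 0 < y.im ∧ 0 < (ψ y).im} (K93M.modelled_univ _)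
      ![fun z => z, ψ] (by
        intro i
        fin_cases i
        · exact K93M.Reg.id _
        · exact hψ.mono fun y hy => hy.1)
      (by
        rintro y ⟨hy, hy1, hy2⟩ i
        obtain ⟨h4, h5, -⟩ := hE y hy
        fin_cases i
        · exact ⟨Set.mem_iUnion.mpr ⟨0, h4⟩, hy1⟩
        · exact ⟨Set.mem_iUnion.mpr ⟨0, h5⟩, hy2⟩)
      (by
        rintro y ⟨hy, -, -⟩ i i' hne
        have h6 := (hE y hy).2.2
        fin_cases i <;> fin_cases i'
        · exact absurd rfl hne
        · exact h6.symm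
        · exact h6
        · exact absurd rfl hne)
    refine h3.trans (le_of_eq ?_)
    rw [Fin.sum_univ_two]
    show ENNReal.ofReal (2 - (1 / 4 + 1 / 4)) = 3 / 2
    rw [show (2:ℝ) - (1 / 4 + 1 / 4) = 3 / 2 by norm_num, ENNReal.ofReal_div_of_pos (by norm_num)]
    norm_num
  refine (dimH_mono hsub).trans ?_
  rw [dimH_union, dimH_union]
  exact max_le b1 (max_le b2 b3)

theorem result :
    (∀ φ : ℕ → ℕ, Tendsto φ atTop atTop → ∃ ψ : ℕ → ℕ, StrictMono ψ ∧
      ∃ μ : ProbabilityMeasure C(unitInterval, ℂ),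
        Tendsto (fun i => lawH (φ (ψ i))) atTop (𝓝 μ)) ∧
    (∀ φ : ℕ → ℕ, Tendsto φ atTop atTop → ∀ μ : ProbabilityMeasure C(unitInterval, ℂ),
      Tendsto (fun i => lawH (φ i)) atTop (𝓝 μ) →
      ∀ᵐ f : C(unitInterval, ℂ) ∂(μ : Measure C(unitInterval, ℂ)),
        (∀ (n : ℕ) (τ : Fin n → Fin 3) (E : Set ℂ) (g : Fin n → ℂ → ℂ), (∀ i, Reg (g i) E) →
          (∀ y ∈ E, (∀ i, g i y ∈ special f (τ i) ∩ upperHalf) ∧
            Function.Injective fun i => g i y) →
          dimH E ≤ ENNReal.ofReal (2 - ∑ i, codim (τ i))) ∧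
        (∀ (E : Set ℂ) (ψ : ℂ → ℂ), Reg ψ E →
          (∀ y ∈ E, y ∈ Set.range f ∧ ψ y ∈ Set.range f ∧ ψ y ≠ y) → dimH E ≤ 3 / 2) ∧
        (∀ s t : unitInterval, s < t → ∀ ψ : ℂ → ℂ, Reg ψ (f '' Set.Icc s t) →
          (∀ y ∈ f '' Set.Icc s t, ψ y ∈ Set.range f) → ∀ y ∈ f '' Set.Icc s t, ψ y = y) ∧
        (∀ U : Set ℂ, IsOpen U → IsPreconnected U → (U ∩ Set.range f).Nonempty →
          ∀ ψ : ℂ → ℂ, DifferentiableOn ℂ ψ U → (¬ ∃ c, ∀ z ∈ U, ψ z = c) →
          (∀ z ∈ U ∩ Set.range f, ψ z ∈ Set.range f) → ∀ z ∈ U, ψ z = z)) := by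
  refine ⟨UniformDimension.result.1, fun φ hφ μ hμ => ?_⟩
  filter_upwards [Displacement.result.2.2.2.2.2 φ hφ μ hμ,
    K93M.several_half hφ hμ (K := Set.univ) (s := 2) (fun s' hs' => K93M.hom_univ hs'),
    K93M.several_half hφ hμ (K := Set.range Complex.ofReal) (s := 1)
      (fun s' hs' => K93U.hom_line hs')] with f hq h2 h1
  obtain ⟨-, him, -, hdim, -⟩ := hq
  have h0 : ∀ A : Set ℂ, K93U.Modelled (Set.range Complex.ofReal) A →
      dimH A ≤ ENNReal.ofReal 1 := by
    intro A hA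
    have h3 := h1 0 ![] A hA ![] (fun i => Fin.elim0 i) (fun y _ i => Fin.elim0 i)
      (fun y _ i => Fin.elim0 i)
    simpa using h3
  have hrig : K93M.Rig f := rig him (h2 2) h0
  refine ⟨fun n τ E g hg hE => ?_, hrig, fun s t hst ψ hψ hm => K93M.arc_id hdim hrig hst hψ hm,
    fun U hU hc hne ψ hψ hnc hm => K93M.hol_id hdim hrig hU hc hne hψ hnc hm⟩
  exact h2 n τ E (K93M.modelled_univ E) g hg
    (fun y hy i => ⟨special_sub hdim (τ i) ((hE y hy).1 i).1, ((hE y hy).1 i).2⟩)
    (fun y hy i i' hne h => hne ((hE y hy).2 h))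

end Pool.Agent.Results.MP_6c8efb_pr.SmoothRigidity
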