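import Pool.Agent.K3h93.UG.HMain
import Pool.Agent.K3h93.UR.Line
import Pool.Agent.Results.MP_6c8efb_pr.SpecialPoints

/-!
# The half-plane exploration path: uniform bounds for special points on smooth images of sets

Critical bond percolation on `ℤ × ℕ`, the edges `[x, x + 1]` of the real axis open for `x < 0` and
closed for `x ≥ 0`. The exploration path starts next to the origin and keeps the open cluster of
the negative half-axis on its left; `gam ω k` is its point after `k` steps, and `curve n ω` is the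
path `n ^ (-4/7) γ(n t)`, `0 ≤ t ≤ 1`, with law `lawH n`. Weak limits exist along a subsequence of
every sequence `n → ∞`.

Let `μ` be a weak limit and let `K` be a set of Assouad dimension at most `s` (for instance a line,
`s = 1`). Then, almost surely, simultaneously for all sets `A` which are locally modelled on `K`
and for all the images `A = g(K)` under maps `g` which are differentiable with invertible
derivative at the points of `K`: in the open half-plane,
* the points of `A` on the trace form a set of dimension at most `(s - 1/4)⁺`;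
* the points of `A` which, for some time `t`, lie on the boundary of a component of the complement
  of the past `f [0, t]` and are not the tip `f t`, form a set of dimension at most `(s - 2/3)⁺`;
* the double points in `A` form a set of dimension at most `(s - 5/4)⁺`;
* the corresponding sets of times have dimension at most `4/7` of these values.

Almost surely, for every map `g : ℝ → ℂ`, the part of the curve `g` where it has a nonzero
derivative contains in the open half-plane a set of points of the trace of dimension at most `3/4`,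
a set of points of the sides of the past of dimension at most `1/3`, and a set of double points of
dimension `0`; and if `g` is Lipschitz, then it meets the trace in the open half-plane in a set of
length zero.

Definitions: `Pool.Agent.K3h93.UR.Config` (`Hom`), `Pool.Agent.K3h93.UR.Main` (`Modelled`),
`Pool.Agent.Results.MP_6c8efb_pr.SpecialPoints` (`upperHalf`, `doublePoints`, `sides`, `sweptSides`,
`times`), `Pool.Agent.H984R4.HN.HPDefs` (`Conf`, `perc`, `opn`, `step`, `path`, `place`, `gam`,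
`curve`), `Pool.Agent.H984R4.HN.FinalH` (`lawH`), `Pool.Agent.H984R4.NP.Model` (`pl`, `clamp`).
-/

set_option autoImplicit false

namespace Pool.Agent.Results.MP_6c8efb_pr.UniformSpecialPoints

open H984H MeasureTheory Filter Topology
open scoped ENNReal
open Pool.Agent.Results.MP_6c8efb_pr.SpecialPoints

/-- The bounds for one set `A`. -/
def Bounds (f : C(unitInterval, ℂ)) (A : Set ℂ) (s : ℝ) : Prop :=
  dimH (Set.range f ∩ A ∩ upperHalf) ≤ ENNReal.ofReal (s - 1 / 4) ∧
  dimH (times f (A ∩ upperHalf)) ≤ 4 / 7 * ENNReal.ofReal (s - 1 / 4) ∧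
  dimH (sweptSides f ∩ A ∩ upperHalf) ≤ ENNReal.ofReal (s - 2 / 3) ∧
  dimH (times f (sweptSides f ∩ A ∩ upperHalf)) ≤ 4 / 7 * ENNReal.ofReal (s - 2 / 3) ∧
  dimH (doublePoints f ∩ A ∩ upperHalf) ≤ ENNReal.ofReal (s - 5 / 4) ∧
  dimH (times f (doublePoints f ∩ A ∩ upperHalf)) ≤ 4 / 7 * ENNReal.ofReal (s - 5 / 4)

theorem cover_bound {B H : Set ℂ} {A : Set ℂ} {ι : Type} [Countable ι] {A' : ι → Set ℂ} {c : ℝ≥0∞}
    (hA : A ⊆ ⋃ i, A' i) (h : ∀ i, dimH (B ∩ H ∩ A' i) ≤ c) : dimH (B ∩ A ∩ H) ≤ c := by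
  have hsub : B ∩ A ∩ H ⊆ ⋃ i, B ∩ H ∩ A' i := by
    rintro z ⟨⟨h1, h2⟩, h3⟩
    obtain ⟨i, hi⟩ := Set.mem_iUnion.mp (hA h2)
    exact Set.mem_iUnion.mpr ⟨i, ⟨h1, h3⟩, hi⟩
  refine (dimH_mono hsub).trans ?_
  rw [dimH_iUnion]
  exact iSup_le h

theorem bounds_ae {φ : ℕ → ℕ} (hφ : Tendsto φ atTop atTop)
    {μ : ProbabilityMeasure C(unitInterval, ℂ)} (hμ : Tendsto (fun i => lawH (φ i)) atTop (𝓝 μ))
    {K : Set ℂ} {s : ℝ} (hK : ∀ s' : ℝ, s < s' → K93U.Hom K s') :
    ∀ᵐ f : C(unitInterval, ℂ) ∂(μ : Measure C(unitInterval, ℂ)), ∀ A : Set ℂ,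
      (∃ A' : (ℕ × ℕ) × (ℤ × ℤ) → Set ℂ, (∀ i, K93U.Modelled K (A' i)) ∧ A ⊆ ⋃ i, A' i) →
      Bounds f A s := by
  filter_upwards [UniformDimension.result.2 φ hφ μ hμ, Displacement.result.2.2.2.2.2 φ hφ μ hμ,
    K93G.ae2 hφ hμ hK, K93G.ae3 hφ hμ hK, K93G.ae4 hφ hμ hK] with f hf hq h2 h3 h4
  rintro A ⟨A', hA1, hA2⟩
  obtain ⟨-, -, -, hdim, -⟩ := hq
  have b2 : dimH (Set.range f ∩ A ∩ upperHalf) ≤ ENNReal.ofReal (s - 1 / 4) :=
    cover_bound hA2 fun i => h2 (A' i) (hA1 i)
  have b3 : dimH (sweptSides f ∩ A ∩ upperHalf) ≤ ENNReal.ofReal (s - 2 / 3) := by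
    refine (dimH_mono ?_).trans (cover_bound hA2 fun i => h3 (A' i) (hA1 i))
    exact Set.inter_subset_inter_left _ (Set.inter_subset_inter_left _ (swept_sub f))
  have b4 : dimH (doublePoints f ∩ A ∩ upperHalf) ≤ ENNReal.ofReal (s - 5 / 4) := by
    refine (dimH_mono ?_).trans (cover_bound hA2 fun i => h4 (A' i) (hA1 i))
    exact Set.inter_subset_inter_left _ (Set.inter_subset_inter_left _ (dbl_sub hdim))
  have htime : ∀ S : Set ℂ, 7 / 4 * dimH (times f S) ≤ dimH (Set.range f ∩ S) := by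
    intro S
    rw [← hf (times f S)]
    apply dimH_mono
    rintro _ ⟨u, hu, rfl⟩
    exact ⟨⟨u, rfl⟩, hu⟩
  refine ⟨b2, solve ((htime _).trans ?_), b3,
    solve ((htime _).trans ((dimH_mono Set.inter_subset_right).trans b3)), b4,
    solve ((htime _).trans ((dimH_mono Set.inter_subset_right).trans b4))⟩
  rw [← Set.inter_assoc]
  exact b2

theorem result :
    (∀ φ : ℕ → ℕ, Tendsto φ atTop atTop → ∃ ψ : ℕ → ℕ, StrictMono ψ ∧
      ∃ μ : ProbabilityMeasure C(unitInterval, ℂ),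
        Tendsto (fun i => lawH (φ (ψ i))) atTop (𝓝 μ)) ∧
    (∀ φ : ℕ → ℕ, Tendsto φ atTop atTop → ∀ μ : ProbabilityMeasure C(unitInterval, ℂ),
      Tendsto (fun i => lawH (φ i)) atTop (𝓝 μ) →
      (∀ (K : Set ℂ) (s : ℝ), (∀ s' : ℝ, s < s' → K93U.Hom K s') →
        ∀ᵐ f : C(unitInterval, ℂ) ∂(μ : Measure C(unitInterval, ℂ)),
          (∀ A : Set ℂ, K93U.Modelled K A → Bounds f A s) ∧
          (∀ g : ℂ → ℂ,
            (∀ κ ∈ K, ∃ L : ℂ ≃L[ℝ] ℂ, HasFDerivWithinAt g (L : ℂ →L[ℝ] ℂ) K κ) →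
            Bounds f (g '' K) s)) ∧
      (∀ᵐ f : C(unitInterval, ℂ) ∂(μ : Measure C(unitInterval, ℂ)), ∀ g : ℝ → ℂ,
        dimH (Set.range f ∩ g '' {u | ∃ v, v ≠ 0 ∧ HasDerivAt g v u} ∩ upperHalf) ≤ 3 / 4 ∧
        dimH (sweptSides f ∩ g '' {u | ∃ v, v ≠ 0 ∧ HasDerivAt g v u} ∩ upperHalf) ≤ 1 / 3 ∧
        dimH (doublePoints f ∩ g '' {u | ∃ v, v ≠ 0 ∧ HasDerivAt g v u} ∩ upperHalf) = 0 ∧
        ((∃ c, LipschitzWith c g) → μH[1] (Set.range f ∩ Set.range g ∩ upperHalf) = 0))) := by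
  refine ⟨UniformDimension.result.1, fun φ hφ μ hμ => ⟨fun K s hK => ?_, ?_⟩⟩
  · filter_upwards [bounds_ae hφ hμ hK] with f hf
    refine ⟨fun A hA => hf A ⟨fun _ => A, fun _ => hA, ?_⟩, fun g hg => ?_⟩
    · exact Set.subset_iUnion (fun _ : (ℕ × ℕ) × (ℤ × ℤ) => A) ((0, 0), (0, 0))
    · exact hf _ (K93U.image_modelled hg)
  · filter_upwards [bounds_ae hφ hμ (K := Set.range Complex.ofReal) (s := 1)
      (fun s' hs' => K93U.hom_line hs')] with f hf g
    obtain ⟨b1, -, b2, -, b3, -⟩ := hf _ (K93U.regular_modelled g)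
    have e1 : ENNReal.ofReal (1 - 1 / 4) = 3 / 4 := by
      rw [show (1:ℝ) - 1 / 4 = 3 / 4 by norm_num, ENNReal.ofReal_div_of_pos (by norm_num)]
      norm_num
    have e2 : ENNReal.ofReal (1 - 2 / 3) = 1 / 3 := by
      rw [show (1:ℝ) - 2 / 3 = 1 / 3 by norm_num, ENNReal.ofReal_div_of_pos (by norm_num)]
      norm_num
    have e3 : ENNReal.ofReal (1 - 5 / 4) = 0 := ENNReal.ofReal_of_nonpos (by norm_num)
    rw [e1] at b1
    rw [e2] at b2
    rw [e3] at b3
    refine ⟨b1, b2, nonpos_iff_eq_zero.mp b3, ?_⟩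
    rintro ⟨c, hc⟩
    have h1 : dimH ((Set.range f ∩ upperHalf) ∩ g '' {u | ∃ v, v ≠ 0 ∧ HasDerivAt g v u}) < 1 := by
      rw [Set.inter_right_comm]
      refine lt_of_le_of_lt b1 ?_
      rw [show (3 / 4 : ℝ≥0∞) = ENNReal.ofReal (3 / 4) by
        rw [ENNReal.ofReal_div_of_pos (by norm_num)]; norm_num, ← ENNReal.ofReal_one]
      exact (ENNReal.ofReal_lt_ofReal_iff (by norm_num)).mpr (by norm_num)
    have h2 := K93U.lip_null hc h1
    rwa [Set.inter_right_comm] at h2

end Pool.Agent.Results.MP_6c8efb_pr.UniformSpecialPoints
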